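import Pool.Agent.Helper57.SL.Stmts

/-!
# Bounds for the logarithmic derivative of the Euler product (row DWS)
-/

set_option autoImplicit false

namespace Pool.Agent.Helper81.SL

open MeasureTheory Set Filter Topology
open Pool.Agent.Helper57.QZ (Pr tor circ aa Zy Wy Sy Vy Ky pt lin)
open Pool.Agent.Helper57.SL

theorem dws_re (a θ φ : ℝ) : (Complex.exp (-((θ : ℂ) * Complex.I)) *
    ((a : ℂ) * Complex.exp (-((φ : ℂ) * Complex.I)))).re = a * Real.cos (θ + φ) := by
  have h : Complex.exp (-((θ : ℂ) * Complex.I)) * ((a : ℂ) * Complex.exp (-((φ : ℂ) * Complex.I))) =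
      (a : ℂ) * Complex.exp (((-(θ + φ) : ℝ) : ℂ) * Complex.I) := by
    rw [mul_left_comm, ← Complex.exp_add]
    congr 2
    push_cast
    ring
  rw [h, Complex.re_ofReal_mul, Complex.exp_ofReal_mul_I_re, Real.cos_neg]

theorem dws_nrm (θ : ℝ) (w : ℂ) : ‖Complex.exp (-((θ : ℂ) * Complex.I)) * w‖ = ‖w‖ := by
  have h : Complex.exp (-((θ : ℂ) * Complex.I)) = Complex.exp (((-θ : ℝ) : ℂ) * Complex.I) := by
    congr 1
    push_cast
    ring
  rw [norm_mul, h, Complex.norm_exp_ofReal_mul_I, one_mul]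

theorem dws_arg (V : ℂ) : (Complex.exp (-((V.arg : ℂ) * Complex.I)) * V).re = ‖V‖ := by
  have h := congrArg (fun w : ℂ => (Complex.exp (-((V.arg : ℂ) * Complex.I)) * w).re)
    (Complex.norm_mul_exp_arg_mul_I V)
  beta_reduce at h
  rw [← h, mul_left_comm, ← Complex.exp_add, neg_add_cancel, Complex.exp_zero, mul_one,
    Complex.ofReal_re]

theorem dws_sum (x : ℕ) (g : ℕ → ℝ) :
    ∑ p : Pr x, g (p : ℕ) = ∑ p ∈ Nat.primesBelow (x + 1), g p :=
  (Finset.sum_subtype (Nat.primesBelow (x + 1)) (fun _ => Iff.rfl) g).symm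

theorem dws_sub {z y : ℕ} (h : z ≤ y) : Nat.primesBelow (z + 1) ⊆ Nat.primesBelow (y + 1) := by
  intro p hp
  rw [Nat.mem_primesBelow] at hp ⊢
  exact ⟨by omega, hp.2⟩

theorem dws_cut (y z : ℕ) (hzy : z ≤ y) (g : ℕ → ℝ) :
    ∑ p : Pr y, (if z < (p : ℕ) then 0 else g (p : ℕ)) = ∑ p ∈ Nat.primesBelow (z + 1), g p := by
  rw [dws_sum y (fun p => if z < p then 0 else g p)]
  rw [← Finset.sum_subset (dws_sub hzy)]
  · refine Finset.sum_congr rfl fun p hp => ?_
    rw [Nat.mem_primesBelow] at hp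
    rw [if_neg (by omega)]
  · intro p hp hp2
    rw [Nat.mem_primesBelow] at hp hp2
    rw [if_pos]
    by_contra hcon
    exact hp2 ⟨by omega, hp.2⟩

theorem dws_split (y Z : ℕ) (t σ ϑ : ℝ) (hZ : Z ≤ y) :
    (Complex.exp (-((ϑ : ℂ) * Complex.I)) * Vy y σ (lin y t)).re =
      ∑ p ∈ Nat.primesBelow (Z + 1),
        Real.log (p : ℝ) * (p : ℝ) ^ (-σ) * Real.cos (ϑ + t * Real.log (p : ℝ)) +
      (Complex.exp (-((ϑ : ℂ) * Complex.I)) * ts 1 σ y Z (lin y t)).re := by
  obtain ⟨h, hh⟩ : ∃ h : ℕ → ℝ, h = fun p : ℕ =>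
      Real.log (p : ℝ) * (p : ℝ) ^ (-σ) * Real.cos (ϑ + t * Real.log (p : ℝ)) :=
    ⟨_, rfl⟩
  have e1 : (Complex.exp (-((ϑ : ℂ) * Complex.I)) * Vy y σ (lin y t)).re =
      ∑ p : Pr y, h (p : ℕ) := by
    unfold Vy
    rw [Finset.mul_sum, Complex.re_sum]
    refine Finset.sum_congr rfl fun p _ => ?_
    rw [dws_re, hh]
    unfold aa lin
    ring
  have e2 : (Complex.exp (-((ϑ : ℂ) * Complex.I)) * ts 1 σ y Z (lin y t)).re =
      ∑ p : Pr y, (if Z < (p : ℕ) then h (p : ℕ) else 0) := by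
    unfold ts
    rw [Finset.mul_sum, Complex.re_sum]
    refine Finset.sum_congr rfl fun p _ => ?_
    split_ifs with hp
    · rw [dws_re, hh, pow_one]
      rfl
    · rw [mul_zero, Complex.zero_re]
  have e4 : ∑ p : Pr y, h (p : ℕ) = ∑ p : Pr y, (if Z < (p : ℕ) then h (p : ℕ) else 0) +
      ∑ p : Pr y, (if Z < (p : ℕ) then 0 else h (p : ℕ)) := by
    rw [← Finset.sum_add_distrib]
    refine Finset.sum_congr rfl fun p _ => ?_
    split_ifs <;> simp
  rw [e1, e2, e4, dws_cut y Z hZ h, hh, add_comm]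

theorem st_DWS (h1 : Pool.Agent.Helper57.QZ.ST_DT2) : ST_DWS := by
  obtain ⟨C0, hC0⟩ := h1 (1 / 4) (by norm_num)
  refine ⟨max C0 1, lt_of_lt_of_le one_pos (le_max_right _ _), ?_⟩
  intro y z Z t σ e hσ hz hzZ hZy htl
  have e10 := le_max_left C0 1
  have a2 := hC0 y σ (lin y t) (by linarith [hσ.1])
  have hw : ∀ p : ℕ, 0 ≤ Real.log (p : ℝ) * (p : ℝ) ^ (-σ) := fun p =>
    mul_nonneg (Real.log_natCast_nonneg p) (Real.rpow_nonneg (Nat.cast_nonneg p) _)
  have hts : ∀ ϑ : ℝ, |(Complex.exp (-((ϑ : ℂ) * Complex.I)) * ts 1 σ y Z (lin y t)).re| ≤ e := by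
    intro ϑ
    refine (Complex.abs_re_le_norm _).trans ?_
    rw [dws_nrm]
    exact htl
  have hWV : ∀ ϑ : ℝ, |(Complex.exp (-((ϑ : ℂ) * Complex.I)) * Wy y σ (lin y t)).re +
      (Complex.exp (-((ϑ : ℂ) * Complex.I)) * Vy y σ (lin y t)).re| ≤ C0 := by
    intro ϑ
    rw [← Complex.add_re, ← mul_add]
    refine (Complex.abs_re_le_norm _).trans ?_
    rw [dws_nrm]
    exact a2
  refine ⟨?_, ?_, ?_⟩
  · -- the upper bound
    have b1 : ‖Vy y σ (lin y t)‖ ≤ S2 σ Z + e := by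
      have b2 := dws_arg (Vy y σ (lin y t))
      rw [← b2, dws_split y Z t σ _ hZy]
      have b5 := (abs_le.1 (hts (Vy y σ (lin y t)).arg)).2
      have b6 : ∑ p ∈ Nat.primesBelow (Z + 1), Real.log (p : ℝ) * (p : ℝ) ^ (-σ) *
          Real.cos ((Vy y σ (lin y t)).arg + t * Real.log (p : ℝ)) ≤ S2 σ Z := by
        unfold S2
        refine Finset.sum_le_sum fun p _ => ?_
        exact mul_le_of_le_one_right (hw p) (Real.cos_le_one _)
      linarith
    have b7 : ‖Wy y σ (lin y t)‖ ≤ ‖Wy y σ (lin y t) + Vy y σ (lin y t)‖ +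
        ‖Vy y σ (lin y t)‖ := by
      have := norm_sub_le (Wy y σ (lin y t) + Vy y σ (lin y t)) (Vy y σ (lin y t))
      rwa [add_sub_cancel_right] at this
    linarith
  · -- the lower bound
    have b0 : ‖Wy y σ (lin y t)‖ = ‖Complex.exp (-(((0:ℝ) : ℂ) * Complex.I)) *
      Wy y σ (lin y t)‖ := (dws_nrm 0 _).symm
    have b1 := (abs_le.1 (Complex.abs_re_le_norm (Complex.exp (-(((0:ℝ) : ℂ) * Complex.I)) *
      Wy y σ (lin y t)))).1
    rw [← b0] at b1
    have b2 := (abs_le.1 (hWV 0)).2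
    have b3 := dws_split y Z t σ 0 hZy
    have b4 := (abs_le.1 (hts 0)).1
    have b5 : S2 σ Z - Real.log Z * F1 σ y Z (lin y t) ≤
        ∑ p ∈ Nat.primesBelow (Z + 1), Real.log (p : ℝ) * (p : ℝ) ^ (-σ) *
          Real.cos (0 + t * Real.log (p : ℝ)) := by
      have c1 : F1 σ y Z (lin y t) = ∑ p ∈ Nat.primesBelow (Z + 1),
          (p : ℝ) ^ (-σ) * (1 - Real.cos (t * Real.log (p : ℝ))) := by
        rw [← dws_cut y Z hZy]
        unfold F1
        refine Finset.sum_congr rfl fun p _ => ?_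
        by_cases hp : Z < (p : ℕ)
        · rw [if_pos hp, if_neg (by omega)]
        · rw [if_neg hp, if_pos (by omega)]
          rfl
      rw [c1, Finset.mul_sum]
      unfold S2
      rw [← Finset.sum_sub_distrib]
      refine Finset.sum_le_sum fun p hp => ?_
      rw [Nat.mem_primesBelow] at hp
      have hp1 : 0 < (p : ℝ) := by exact_mod_cast hp.2.pos
      have hpZ : (p : ℝ) ≤ (Z : ℝ) := by exact_mod_cast (by omega : p ≤ Z)
      have c2 : Real.log (p : ℝ) ≤ Real.log (Z : ℝ) := Real.log_le_log hp1 hpZ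
      have c3 : 0 ≤ (p : ℝ) ^ (-σ) * (1 - Real.cos (t * Real.log (p : ℝ))) :=
        mul_nonneg (Real.rpow_nonneg hp1.le _) (by linarith [Real.cos_le_one (t * Real.log (p : ℝ))])
      have c4 := mul_le_mul_of_nonneg_right c2 c3
      rw [zero_add]
      nlinarith [c4]
    have b6 : ‖Wy y σ (lin y t)‖ ≥ ‖Vy y σ (lin y t)‖ - C0 := by
      have := norm_sub_norm_le (Vy y σ (lin y t)) (-(Wy y σ (lin y t)))
      rw [sub_neg_eq_add, norm_neg, add_comm (Vy y σ (lin y t))] at this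
      linarith
    have b7 := Complex.re_le_norm (Complex.exp (-(((0:ℝ) : ℂ) * Complex.I)) *
      Vy y σ (lin y t))
    rw [dws_nrm] at b7
    linarith
  · intro θ
    have b2 := (abs_le.1 (hWV θ)).1
    have b3 := dws_split y Z t σ θ hZy
    have b4 := (abs_le.1 (hts θ)).2
    have b5 : ∑ p ∈ Nat.primesBelow (Z + 1), Real.log (p : ℝ) * (p : ℝ) ^ (-σ) *
          Real.cos (θ + t * Real.log (p : ℝ)) ≤
        -(S2 σ z - E2 σ z (θ + Real.pi) t) + (S2 σ Z - S2 σ z) := by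
      have c1 : S2 σ z - E2 σ z (θ + Real.pi) t = -∑ p ∈ Nat.primesBelow (z + 1),
          Real.log (p : ℝ) * (p : ℝ) ^ (-σ) * Real.cos (θ + t * Real.log (p : ℝ)) := by
        unfold S2 E2
        rw [dws_sum z (fun p => Real.log (p : ℝ) * (p : ℝ) ^ (-σ) *
          (1 - Real.cos (t * Real.log (p : ℝ) + (θ + Real.pi)))), ← Finset.sum_sub_distrib,
          ← Finset.sum_neg_distrib]
        refine Finset.sum_congr rfl fun p _ => ?_
        have e7 : t * Real.log (p : ℝ) + (θ + Real.pi) =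
          (θ + t * Real.log (p : ℝ)) + Real.pi := by ring
        rw [e7, Real.cos_add_pi]
        ring
      have hss := dws_sub hzZ
      have c2 : S2 σ Z - S2 σ z = ∑ p ∈ Nat.primesBelow (Z + 1) \ Nat.primesBelow (z + 1),
          Real.log (p : ℝ) * (p : ℝ) ^ (-σ) := by
        unfold S2
        rw [← Finset.sum_sdiff hss]
        ring
      rw [c1, c2, neg_neg, ← Finset.sum_sdiff hss, add_comm]
      refine add_le_add le_rfl (Finset.sum_le_sum fun p _ => ?_)
      exact mul_le_of_le_one_right (hw p) (Real.cos_le_one _)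
    linarith

end Pool.Agent.Helper81.SL
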